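import Pool.Agent.Lib.MP_edb5be_nt.ND.Iface

/-!
Project ND, module BIN: estimates for the binomial weights.
-/

set_option autoImplicit false

namespace Pool.Agent.Lib.MP_edb5be_nt.ND.H50

open Finset Pool.Agent.Lib.MP_0a5adf_nt.TP

theorem sum_choose_succ (J : ℕ) (F : ℕ → ℝ) :
    ∑ v ∈ range (J + 2), ((J + 1).choose v : ℝ) * F v =
      ∑ v ∈ range (J + 1), (J.choose v : ℝ) * (F v + F (v + 1)) := by
  rw [Finset.sum_range_succ']
  simp only [Nat.choose_succ_succ, Nat.cast_add, add_mul, mul_add, Finset.sum_add_distrib]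
  have h : ∑ v ∈ range (J + 1), (J.choose v : ℝ) * F v =
      ∑ v ∈ range (J + 1), (J.choose (v + 1) : ℝ) * F (v + 1) + (J.choose 0 : ℝ) * F 0 := by
    rw [← Finset.sum_range_succ' (fun v => (J.choose v : ℝ) * F v) (J + 1)]
    rw [Finset.sum_range_succ (fun v => (J.choose v : ℝ) * F v) (J + 1)]
    simp
  rw [h]
  simp only [Nat.choose_zero_right]
  ring

theorem bw_nonneg (J v : ℕ) : 0 ≤ bw J v := by
  unfold bw; positivity

theorem sum_bw (J : ℕ) : ∑ v ∈ range (J + 1), bw J v = 1 := by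
  unfold bw
  rw [← Finset.sum_div]
  have h : ∑ v ∈ range (J + 1), (J.choose v : ℝ) = 2 ^ J := by
    exact_mod_cast congrArg (Nat.cast : ℕ → ℝ) (Nat.sum_range_choose J)
  rw [h]
  exact div_self (by positivity)

theorem sum_sq (J : ℕ) :
    ∑ v ∈ range (J + 1), (J.choose v : ℝ) * (2 * (v : ℝ) - (J : ℝ)) ^ 2 = (J : ℝ) * 2 ^ J := by
  induction J with
  | zero => simp
  | succ J ih =>
    rw [sum_choose_succ J (fun v => (2 * (v : ℝ) - ((J + 1 : ℕ) : ℝ)) ^ 2)]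
    have h : ∀ v ∈ range (J + 1), (J.choose v : ℝ) * ((2 * (v : ℝ) - ((J + 1 : ℕ) : ℝ)) ^ 2 +
        (2 * ((v + 1 : ℕ) : ℝ) - ((J + 1 : ℕ) : ℝ)) ^ 2) =
        2 * ((J.choose v : ℝ) * (2 * (v : ℝ) - J) ^ 2) + 2 * (J.choose v : ℝ) := by
      intro v _
      push_cast
      ring
    rw [Finset.sum_congr rfl h, Finset.sum_add_distrib, ← Finset.mul_sum, ← Finset.mul_sum, ih]
    have h2 : ∑ v ∈ range (J + 1), (J.choose v : ℝ) = 2 ^ J := by
      exact_mod_cast congrArg (Nat.cast : ℕ → ℝ) (Nat.sum_range_choose J)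
    rw [h2]
    push_cast
    ring

theorem sum_bw_sq (J : ℕ) :
    ∑ v ∈ range (J + 1), bw J v * (2 * (v : ℝ) - (J : ℝ)) ^ 2 = (J : ℝ) := by
  have h : ∀ v ∈ range (J + 1), bw J v * (2 * (v : ℝ) - J) ^ 2 =
      ((J.choose v : ℝ) * (2 * (v : ℝ) - J) ^ 2) / 2 ^ J := by
    intro v _
    unfold bw
    ring
  rw [Finset.sum_congr rfl h, ← Finset.sum_div, sum_sq]
  field_simp

theorem sum_bw_abs (J : ℕ) :
    ∑ v ∈ range (J + 1), bw J v * |(v : ℝ) - J / 2| ≤ √J / 2 := by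
  rcases Nat.eq_zero_or_pos J with h0 | h0
  · subst h0
    simp [bw]
  have hJ : (0 : ℝ) < J := by exact_mod_cast h0
  have hs : 0 < √(J : ℝ) := Real.sqrt_pos.mpr hJ
  have hsq : √(J : ℝ) * √(J : ℝ) = J := Real.mul_self_sqrt hJ.le
  have hterm : ∀ v ∈ range (J + 1), bw J v * |(v : ℝ) - J / 2| ≤
      bw J v * (2 * (v : ℝ) - J) ^ 2 * (1 / (4 * √(J : ℝ))) + bw J v * (√(J : ℝ) / 4) := by
    intro v _
    have hb := bw_nonneg J v
    have key : |(v : ℝ) - J / 2| ≤ (2 * (v : ℝ) - J) ^ 2 * (1 / (4 * √(J : ℝ))) + √(J : ℝ) / 4 := by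
      have h1 : |(v : ℝ) - J / 2| = |2 * (v : ℝ) - J| / 2 := by
        rw [show (v : ℝ) - J / 2 = (2 * (v : ℝ) - J) / 2 by ring, abs_div]
        norm_num
      rw [h1]
      set x := |2 * (v : ℝ) - J| with hx
      have hx2 : (2 * (v : ℝ) - J) ^ 2 = x ^ 2 := by rw [hx, sq_abs]
      rw [hx2]
      have h3 : x ^ 2 * (1 / (4 * √(J : ℝ))) + √(J : ℝ) / 4 - x / 2 =
          (x - √(J : ℝ)) ^ 2 / (4 * √(J : ℝ)) := by
        field_simp
        ring
      have h4 : 0 ≤ (x - √(J : ℝ)) ^ 2 / (4 * √(J : ℝ)) := by positivity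
      linarith
    calc bw J v * |(v : ℝ) - J / 2| ≤
        bw J v * ((2 * (v : ℝ) - J) ^ 2 * (1 / (4 * √(J : ℝ))) + √(J : ℝ) / 4) :=
          mul_le_mul_of_nonneg_left key hb
      _ = _ := by ring
  calc ∑ v ∈ range (J + 1), bw J v * |(v : ℝ) - J / 2| ≤
      ∑ v ∈ range (J + 1), (bw J v * (2 * (v : ℝ) - J) ^ 2 * (1 / (4 * √(J : ℝ))) +
        bw J v * (√(J : ℝ) / 4)) := Finset.sum_le_sum hterm
    _ = J * (1 / (4 * √(J : ℝ))) + 1 * (√(J : ℝ) / 4) := by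
        rw [Finset.sum_add_distrib, ← Finset.sum_mul, ← Finset.sum_mul, sum_bw_sq, sum_bw]
    _ = √J / 2 := by
        have : (J : ℝ) * (1 / (4 * √(J : ℝ))) = √(J : ℝ) / 4 := by
          rw [mul_one_div, div_eq_div_iff (by positivity) (by norm_num)]
          nlinarith
        rw [this]
        ring

theorem bw_diff (J v : ℕ) (hv : v ≤ J + 1) :
    bw (J + 1) v - bw J v = bw (J + 1) v * ((2 * (v : ℝ) - ((J + 1 : ℕ) : ℝ)) / (J + 1)) := by
  have h : (J.choose v : ℝ) * (J + 1) = ((J + 1).choose v : ℝ) * ((J : ℝ) + 1 - v) := by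
    rcases Nat.lt_or_ge J v with h2 | h2
    · have h3 : v = J + 1 := by omega
      subst h3
      simp
    · have h4 : (J + 1) * J.choose v = (J + 1).choose v * (J + 1 - v) := by
        have h5 := Nat.choose_mul_succ_eq J v
        rw [mul_comm]; exact h5
      have h6 : ((J + 1 - v : ℕ) : ℝ) = (J : ℝ) + 1 - v := by
        rw [Nat.cast_sub (by omega)]
        push_cast
        ring
      have h7 : ((J : ℝ) + 1) * (J.choose v : ℝ) = ((J + 1).choose v : ℝ) * ((J + 1 - v : ℕ) : ℝ) := by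
        exact_mod_cast congrArg (Nat.cast : ℕ → ℝ) h4
      rw [h6] at h7
      linarith
  have hJ : (0 : ℝ) < (J : ℝ) + 1 := by positivity
  have h8 : (J.choose v : ℝ) = ((J + 1).choose v : ℝ) * ((J : ℝ) + 1 - v) / (J + 1) := by
    rw [eq_div_iff hJ.ne']
    exact h
  unfold bw
  rw [h8]
  push_cast
  field_simp
  ring

theorem bin_two (J : ℕ) :
    ∑ v ∈ range (J + 2), |bw (J + 1) v - bw J v| ≤ 1 / √(J + 1) := by
  have hJ : (0 : ℝ) < (J : ℝ) + 1 := by positivity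
  have h1 : ∀ v ∈ range (J + 2), |bw (J + 1) v - bw J v| =
      (2 / ((J : ℝ) + 1)) * (bw (J + 1) v * |(v : ℝ) - ((J + 1 : ℕ) : ℝ) / 2|) := by
    intro v hv
    rw [bw_diff J v (by have := Finset.mem_range.mp hv; omega), abs_mul,
      abs_of_nonneg (bw_nonneg _ _), abs_div, abs_of_pos hJ]
    have h2 : |2 * (v : ℝ) - ((J + 1 : ℕ) : ℝ)| = 2 * |(v : ℝ) - ((J + 1 : ℕ) : ℝ) / 2| := by
      rw [show 2 * (v : ℝ) - ((J + 1 : ℕ) : ℝ) = 2 * ((v : ℝ) - ((J + 1 : ℕ) : ℝ) / 2) by ring,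
        abs_mul]
      norm_num
    rw [h2]
    ring
  rw [Finset.sum_congr rfl h1, ← Finset.mul_sum]
  have h3 := sum_bw_abs (J + 1)
  have h4 : √(((J + 1 : ℕ) : ℝ)) = √((J : ℝ) + 1) := by push_cast; rfl
  rw [h4] at h3
  have hs : 0 < √((J : ℝ) + 1) := Real.sqrt_pos.mpr hJ
  have hsq : √((J : ℝ) + 1) * √((J : ℝ) + 1) = (J : ℝ) + 1 := Real.mul_self_sqrt hJ.le
  calc (2 / ((J : ℝ) + 1)) * ∑ v ∈ range (J + 1 + 1),
        (bw (J + 1) v * |(v : ℝ) - ((J + 1 : ℕ) : ℝ) / 2|) ≤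
      (2 / ((J : ℝ) + 1)) * (√((J : ℝ) + 1) / 2) :=
        mul_le_mul_of_nonneg_left h3 (by positivity)
    _ = 1 / √((J : ℝ) + 1) := by
        rw [eq_div_iff hs.ne']
        have : 2 / ((J : ℝ) + 1) * (√((J : ℝ) + 1) / 2) * √((J : ℝ) + 1) =
            (√((J : ℝ) + 1) * √((J : ℝ) + 1)) / ((J : ℝ) + 1) := by ring
        rw [this, hsq]
        exact div_self hJ.ne'

theorem bw_diff2 (J v : ℕ) (hv : v ≤ J) :
    bw (J + 2) (v + 1) - bw J v = bw (J + 2) (v + 1) *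
      (((2 * ((v + 1 : ℕ) : ℝ) - ((J + 2 : ℕ) : ℝ)) ^ 2 - (J + 2)) / ((J + 1) * (J + 2))) := by
  have h1 : ((J + 2).choose (v + 1) : ℝ) * ((v : ℝ) + 1) = ((J : ℝ) + 2) * ((J + 1).choose v : ℝ) := by
    have h := Nat.add_one_mul_choose_eq (J + 1) v
    have h2 : (J + 2) * (J + 1).choose v = (J + 2).choose (v + 1) * (v + 1) := h
    have h3 := congrArg (Nat.cast : ℕ → ℝ) h2
    push_cast at h3
    linarith
  have h2 : ((J : ℝ) + 1) * (J.choose v : ℝ) = ((J + 1).choose v : ℝ) * ((J : ℝ) + 1 - v) := by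
    have h5 := Nat.choose_mul_succ_eq J v
    have h6 : ((J + 1 - v : ℕ) : ℝ) = (J : ℝ) + 1 - v := by
      rw [Nat.cast_sub (by omega)]
      push_cast
      ring
    have h7 := congrArg (Nat.cast : ℕ → ℝ) h5
    rw [Nat.cast_mul, Nat.cast_mul, h6] at h7
    push_cast at h7
    linarith
  have hJ1 : ((J : ℝ) + 1) ≠ 0 := by positivity
  have hJ2 : ((J : ℝ) + 2) ≠ 0 := by positivity
  have h3 : (J.choose v : ℝ) = ((J + 2).choose (v + 1) : ℝ) * ((v : ℝ) + 1) * ((J : ℝ) + 1 - v) /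
      (((J : ℝ) + 1) * ((J : ℝ) + 2)) := by
    rw [eq_div_iff (by positivity), h1]
    calc (J.choose v : ℝ) * (((J : ℝ) + 1) * ((J : ℝ) + 2)) =
        ((J : ℝ) + 2) * (((J : ℝ) + 1) * (J.choose v : ℝ)) := by ring
      _ = ((J : ℝ) + 2) * ((J + 1).choose v : ℝ) * ((J : ℝ) + 1 - v) := by rw [h2]; ring
  unfold bw
  rw [h3]
  push_cast
  field_simp
  ring

theorem bin_three (J : ℕ) :
    bw (J + 2) 0 + bw (J + 2) (J + 2) +
      ∑ v ∈ range (J + 1), |bw (J + 2) (v + 1) - bw J v| ≤ 2 / (J + 1) := by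
  set G : ℕ → ℝ := fun w => bw (J + 2) w *
    (((2 * (w : ℝ) - ((J + 2 : ℕ) : ℝ)) ^ 2 + (J + 2)) / ((J + 1) * (J + 2))) with hG
  have hJ1 : (0 : ℝ) < (J : ℝ) + 1 := by positivity
  have hJ2 : (0 : ℝ) < (J : ℝ) + 2 := by positivity
  have htot : ∑ w ∈ range (J + 2 + 1), G w = 2 / (J + 1) := by
    have h1 : ∀ w ∈ range (J + 2 + 1), G w =
        (bw (J + 2) w * (2 * (w : ℝ) - ((J + 2 : ℕ) : ℝ)) ^ 2) * (1 / ((J + 1) * (J + 2))) +
        bw (J + 2) w * (1 / (J + 1)) := by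
      intro w _
      simp only [hG]
      field_simp
    rw [Finset.sum_congr rfl h1, Finset.sum_add_distrib, ← Finset.sum_mul, ← Finset.sum_mul,
      sum_bw_sq, sum_bw]
    push_cast
    field_simp
    ring
  have hend0 : bw (J + 2) 0 ≤ G 0 := by
    simp only [hG]
    have h1 : (1 : ℝ) ≤ ((2 * ((0 : ℕ) : ℝ) - ((J + 2 : ℕ) : ℝ)) ^ 2 + (J + 2)) / ((J + 1) * (J + 2)) := by
      rw [le_div_iff₀ (by positivity)]
      push_cast
      nlinarith
    calc bw (J + 2) 0 = bw (J + 2) 0 * 1 := by ring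
      _ ≤ _ := mul_le_mul_of_nonneg_left h1 (bw_nonneg _ _)
  have hend1 : bw (J + 2) (J + 2) ≤ G (J + 2) := by
    simp only [hG]
    have h1 : (1 : ℝ) ≤ ((2 * ((J + 2 : ℕ) : ℝ) - ((J + 2 : ℕ) : ℝ)) ^ 2 + (J + 2)) / ((J + 1) * (J + 2)) := by
      rw [le_div_iff₀ (by positivity)]
      push_cast
      nlinarith
    calc bw (J + 2) (J + 2) = bw (J + 2) (J + 2) * 1 := by ring
      _ ≤ _ := mul_le_mul_of_nonneg_left h1 (bw_nonneg _ _)
  have hmid : ∑ v ∈ range (J + 1), |bw (J + 2) (v + 1) - bw J v| ≤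
      ∑ v ∈ range (J + 1), G (v + 1) := by
    apply Finset.sum_le_sum
    intro v hv
    rw [bw_diff2 J v (by have := Finset.mem_range.mp hv; omega), abs_mul,
      abs_of_nonneg (bw_nonneg _ _)]
    simp only [hG]
    apply mul_le_mul_of_nonneg_left _ (bw_nonneg _ _)
    rw [abs_div, abs_of_pos (by positivity : (0 : ℝ) < ((J : ℝ) + 1) * (J + 2))]
    apply div_le_div_of_nonneg_right _ (by positivity)
    rw [abs_le]
    constructor
    · nlinarith [sq_nonneg (2 * ((v + 1 : ℕ) : ℝ) - ((J + 2 : ℕ) : ℝ))]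
    · linarith
  have hsplit : ∑ w ∈ range (J + 2 + 1), G w =
      (∑ v ∈ range (J + 1), G (v + 1)) + G 0 + G (J + 2) := by
    rw [Finset.sum_range_succ, Finset.sum_range_succ' G (J + 1)]
  linarith

theorem bin : BinStatement := fun J => ⟨sum_bw J, bin_two J, bin_three J, sum_bw_abs J⟩

end Pool.Agent.Lib.MP_edb5be_nt.ND.H50
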