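import Pool.Agent.Lib.MP_edb5be_nt.ND.Iface

/-!
Project ND, module SLOW: shifts by `2 - log_2 3` and by `1`.
-/

set_option autoImplicit false

namespace Pool.Agent.Lib.MP_edb5be_nt.ND.H50

open Finset Pool.Agent.Lib.MP_0a5adf_nt.TP

theorem th_nonneg : 0 ≤ th := by
  unfold th
  exact Real.logb_nonneg (by norm_num) (by norm_num)

theorem th_le_two : th ≤ 2 := by
  unfold th
  rw [Real.logb_le_iff_le_rpow (by norm_num) (by norm_num)]
  norm_num

theorem slow (hTG : TGStatement) (hBin : BinStatement) (hLip : LipStatement) : SlowStatement := by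
  obtain ⟨C, u₁, hC, hT⟩ := hTG
  refine ⟨2 * C + 200, max u₁ 100, by linarith, ?_⟩
  intro d B lo u hu hlo hB
  have hu1 : u₁ ≤ u := le_trans (le_max_left _ _) hu
  have hu100 : (100 : ℝ) ≤ u := le_trans (le_max_right _ _) hu
  have hth0 := th_nonneg
  have hth2 := th_le_two
  set J : ℕ := ⌊u / 40⌋₊ with hJ
  have hJle : (J : ℝ) ≤ u / 40 := Nat.floor_le (by linarith)
  have hJlt : u / 40 < (J : ℝ) + 1 := Nat.lt_floor_add_one _
  have hJ0 : (0 : ℝ) ≤ (J : ℝ) := Nat.cast_nonneg J
  -- bound of Gd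
  have hG : ∀ x : ℝ, 0 ≤ x → |Gd B x| ≤ 2 := by
    intro x hx
    obtain ⟨h1, h2, _⟩ := hLip B x 0 hx le_rfl zero_le_one
    rw [abs_of_nonneg h1]
    have h3 : (1 : ℝ) ≤ 2 ^ x := Real.one_le_rpow (by norm_num) hx
    have h4 : 1 / (2 : ℝ) ^ x ≤ 1 := by
      rw [div_le_one (by positivity)]
      exact h3
    linarith
  have hT0 := hT d B lo u J hu1 (by linarith) hB (by linarith)
  obtain ⟨_, hb2, hb3, _⟩ := hBin J
  have hupos : 0 < u := by linarith
  constructor
  · -- shift by 2 - th
    have hT2 := hT d B lo (u + (2 - th)) (J + 2) (by linarith) (by linarith) hB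
      (by push_cast; linarith)
    have hP : |PJ (J + 2) (Gd B) (u + (2 - th)) - PJ J (Gd B) u| ≤ 2 * (2 / ((J : ℝ) + 1)) := by
      have h1 : PJ (J + 2) (Gd B) (u + (2 - th)) =
          bw (J + 2) 0 * Gd B (u - J - th) +
          bw (J + 2) (J + 2) * Gd B (u - J + th * ((J : ℝ) + 1)) +
          ∑ v ∈ range (J + 1), bw (J + 2) (v + 1) * Gd B (u - J + th * v) := by
        unfold PJ
        rw [Finset.sum_range_succ, Finset.sum_range_succ']
        have e0 : u + (2 - th) - ((J + 2 : ℕ) : ℝ) + th * ((0 : ℕ) : ℝ) = u - J - th := by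
          push_cast; ring
        have e1 : u + (2 - th) - ((J + 2 : ℕ) : ℝ) + th * ((J + 2 : ℕ) : ℝ) =
            u - J + th * ((J : ℝ) + 1) := by
          push_cast; ring
        have e2 : ∀ v ∈ range (J + 1), bw (J + 2) (v + 1) *
            Gd B (u + (2 - th) - ((J + 2 : ℕ) : ℝ) + th * ((v + 1 : ℕ) : ℝ)) =
            bw (J + 2) (v + 1) * Gd B (u - J + th * v) := by
          intro v _
          congr 2
          push_cast; ring
        rw [e0, e1, Finset.sum_congr rfl e2]
        ring
      have h2 : PJ (J + 2) (Gd B) (u + (2 - th)) - PJ J (Gd B) u =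
          bw (J + 2) 0 * Gd B (u - J - th) +
          bw (J + 2) (J + 2) * Gd B (u - J + th * ((J : ℝ) + 1)) +
          ∑ v ∈ range (J + 1), (bw (J + 2) (v + 1) - bw J v) * Gd B (u - J + th * v) := by
        rw [h1]
        unfold PJ
        simp only [sub_mul, Finset.sum_sub_distrib]
        ring
      rw [h2]
      have hnn : ∀ a b : ℕ, 0 ≤ bw a b := fun a b => by unfold bw; positivity
      have t0 : |bw (J + 2) 0 * Gd B (u - J - th)| ≤ 2 * bw (J + 2) 0 := by
        rw [abs_mul, abs_of_nonneg (hnn _ _), mul_comm]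
        exact mul_le_mul_of_nonneg_right (hG _ (by linarith)) (hnn _ _)
      have t1 : |bw (J + 2) (J + 2) * Gd B (u - J + th * ((J : ℝ) + 1))| ≤
          2 * bw (J + 2) (J + 2) := by
        rw [abs_mul, abs_of_nonneg (hnn _ _), mul_comm]
        have : 0 ≤ th * ((J : ℝ) + 1) := by positivity
        exact mul_le_mul_of_nonneg_right (hG _ (by linarith)) (hnn _ _)
      have t2 : |∑ v ∈ range (J + 1), (bw (J + 2) (v + 1) - bw J v) * Gd B (u - J + th * v)| ≤
          2 * ∑ v ∈ range (J + 1), |bw (J + 2) (v + 1) - bw J v| := by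
        refine le_trans (Finset.abs_sum_le_sum_abs _ _) ?_
        rw [Finset.mul_sum]
        apply Finset.sum_le_sum
        intro v _
        rw [abs_mul, mul_comm]
        have : 0 ≤ th * (v : ℝ) := by positivity
        exact mul_le_mul_of_nonneg_right (hG _ (by linarith)) (abs_nonneg _)
      calc |bw (J + 2) 0 * Gd B (u - J - th) +
          bw (J + 2) (J + 2) * Gd B (u - J + th * ((J : ℝ) + 1)) +
          ∑ v ∈ range (J + 1), (bw (J + 2) (v + 1) - bw J v) * Gd B (u - J + th * v)| ≤
          |bw (J + 2) 0 * Gd B (u - J - th)| +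
          |bw (J + 2) (J + 2) * Gd B (u - J + th * ((J : ℝ) + 1))| +
          |∑ v ∈ range (J + 1), (bw (J + 2) (v + 1) - bw J v) * Gd B (u - J + th * v)| :=
            abs_add_three _ _ _
        _ ≤ 2 * (bw (J + 2) 0 + bw (J + 2) (J + 2) +
            ∑ v ∈ range (J + 1), |bw (J + 2) (v + 1) - bw J v|) := by linarith
        _ ≤ 2 * (2 / ((J : ℝ) + 1)) := by linarith
    have hJ2 : 2 * (2 / ((J : ℝ) + 1)) ≤ 160 / u := by
      rw [← mul_div_assoc, div_le_div_iff₀ (by positivity) hupos]
      linarith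
    have hCu : C / (u + (2 - th)) ≤ C / u :=
      div_le_div_of_nonneg_left hC.le hupos (by linarith)
    have hsum : (2 * C + 200) / u = C / u + C / u + 200 / u := by ring
    have h200 : 160 / u ≤ 200 / u := div_le_div_of_nonneg_right (by norm_num) hupos.le
    rw [hsum]
    have htri : |Gd B (u + (2 - th)) - Gd B u| ≤
        |Gd B (u + (2 - th)) - PJ (J + 2) (Gd B) (u + (2 - th))| +
        |PJ (J + 2) (Gd B) (u + (2 - th)) - PJ J (Gd B) u| + |PJ J (Gd B) u - Gd B u| := by
      have := abs_add_three (Gd B (u + (2 - th)) - PJ (J + 2) (Gd B) (u + (2 - th)))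
        (PJ (J + 2) (Gd B) (u + (2 - th)) - PJ J (Gd B) u) (PJ J (Gd B) u - Gd B u)
      have e : Gd B (u + (2 - th)) - Gd B u =
        Gd B (u + (2 - th)) - PJ (J + 2) (Gd B) (u + (2 - th)) +
        (PJ (J + 2) (Gd B) (u + (2 - th)) - PJ J (Gd B) u) + (PJ J (Gd B) u - Gd B u) := by ring
      rw [e]
      exact this
    rw [abs_sub_comm (PJ J (Gd B) u) (Gd B u)] at htri
    linarith
  · -- shift by 1
    have hT1 := hT d B lo (u + 1) (J + 1) (by linarith) (by linarith) hB
      (by push_cast; linarith)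
    have hP : |PJ (J + 1) (Gd B) (u + 1) - PJ J (Gd B) u| ≤ 2 * (1 / √((J : ℝ) + 1)) := by
      have h1 : PJ (J + 1) (Gd B) (u + 1) =
          ∑ v ∈ range (J + 2), bw (J + 1) v * Gd B (u - J + th * v) := by
        unfold PJ
        apply Finset.sum_congr rfl
        intro v _
        congr 2
        push_cast; ring
      have h0 : PJ J (Gd B) u = ∑ v ∈ range (J + 2), bw J v * Gd B (u - J + th * v) := by
        unfold PJ
        rw [Finset.sum_range_succ (fun v : ℕ => bw J v * Gd B (u - J + th * v)) (J + 1)]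
        simp [bw]
      rw [h1, h0, ← Finset.sum_sub_distrib]
      refine le_trans (Finset.abs_sum_le_sum_abs _ _) ?_
      calc ∑ v ∈ range (J + 2), |bw (J + 1) v * Gd B (u - J + th * v) -
            bw J v * Gd B (u - J + th * v)| ≤
          ∑ v ∈ range (J + 2), 2 * |bw (J + 1) v - bw J v| := by
            apply Finset.sum_le_sum
            intro v _
            rw [← sub_mul, abs_mul, mul_comm]
            have : 0 ≤ th * (v : ℝ) := by positivity
            exact mul_le_mul_of_nonneg_right (hG _ (by linarith)) (abs_nonneg _)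
        _ = 2 * ∑ v ∈ range (J + 2), |bw (J + 1) v - bw J v| := by rw [Finset.mul_sum]
        _ ≤ _ := by linarith
    have hsu : 0 < √u := Real.sqrt_pos.mpr hupos
    have hJs : √u / 10 ≤ √((J : ℝ) + 1) := by
      have : √u / 10 = √(u / 100) := by
        rw [Real.sqrt_div hupos.le]
        rw [show (100 : ℝ) = 10 ^ 2 by norm_num, Real.sqrt_sq (by norm_num)]
      rw [this]
      exact Real.sqrt_le_sqrt (by linarith)
    have hP2 : 2 * (1 / √((J : ℝ) + 1)) ≤ 20 / √u := by
      rw [mul_one_div, div_le_div_iff₀ (by positivity) hsu]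
      linarith
    have hinv : 1 / u ≤ 1 / √u := by
      apply one_div_le_one_div_of_le hsu
      have h1 : 1 ≤ √u := by
        rw [show (1 : ℝ) = √1 by simp]
        exact Real.sqrt_le_sqrt (by linarith)
      nlinarith [Real.mul_self_sqrt hupos.le]
    have hCu : C / (u + 1) ≤ C / √u := by
      calc C / (u + 1) ≤ C / u := div_le_div_of_nonneg_left hC.le hupos (by linarith)
        _ = C * (1 / u) := by ring
        _ ≤ C * (1 / √u) := mul_le_mul_of_nonneg_left hinv hC.le
        _ = C / √u := by ring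
    have hCu' : C / u ≤ C / √u := by
      calc C / u = C * (1 / u) := by ring
        _ ≤ C * (1 / √u) := mul_le_mul_of_nonneg_left hinv hC.le
        _ = C / √u := by ring
    have hsum : (2 * C + 200) / √u = C / √u + C / √u + 200 / √u := by ring
    have h200 : 20 / √u ≤ 200 / √u := div_le_div_of_nonneg_right (by norm_num) hsu.le
    rw [hsum]
    have htri : |Gd B (u + 1) - Gd B u| ≤
        |Gd B (u + 1) - PJ (J + 1) (Gd B) (u + 1)| +
        |PJ (J + 1) (Gd B) (u + 1) - PJ J (Gd B) u| + |PJ J (Gd B) u - Gd B u| := by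
      have := abs_add_three (Gd B (u + 1) - PJ (J + 1) (Gd B) (u + 1))
        (PJ (J + 1) (Gd B) (u + 1) - PJ J (Gd B) u) (PJ J (Gd B) u - Gd B u)
      have e : Gd B (u + 1) - Gd B u =
        Gd B (u + 1) - PJ (J + 1) (Gd B) (u + 1) +
        (PJ (J + 1) (Gd B) (u + 1) - PJ J (Gd B) u) + (PJ J (Gd B) u - Gd B u) := by ring
      rw [e]
      exact this
    rw [abs_sub_comm (PJ J (Gd B) u) (Gd B u)] at htri
    linarith

end Pool.Agent.Lib.MP_edb5be_nt.ND.H50
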